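import Pool.Agent.Helper76.TX.StV

/-!
# Project TU (MP_3c9520_nt), module UBS: upper bound for new symbols, all signs
-/

set_option autoImplicit false

namespace Pool.Agent.Helper24.TX

open Pool.Agent.Helper76.TX Pool.Agent.Helper14.CV Pool.Agent.Helper14.TT

/-- `G ↦ edgeF (G ∘ (1 0; 0 2^k))` as a linear map -/
private noncomputable def Lm (μ k r s : ℕ) (u1 u2 v1 v2 : ℤ) :
    (ℤ → ℤ → ℂ) →ₗ[ℂ] (ZMod (2 ^ r) → ZMod (2 ^ s) → ℂ) where
  toFun G x y := edgeF μ u1 u2 v1 v2 (act 1 0 0 (2 ^ k) G) x y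
  map_add' G H := by
    funext x y
    simp only [edgeF, act, Pi.add_apply]
    ring
  map_smul' c G := by
    funext x y
    simp only [edgeF, act, Pi.smul_apply, smul_eq_mul, RingHom.id_apply]
    ring

/-- the inclusion `ℂ^D → ℂ^m` -/
private noncomputable def Inc (D m : ℕ) : (Fin D → ℂ) →ₗ[ℂ] (Fin m → ℂ) :=
  LinearMap.pi fun i => if h : i.1 < D then LinearMap.proj (⟨i.1, h⟩ : Fin D) else 0

private theorem Inc_inj (D m : ℕ) (h : D ≤ m) (v : Fin D → ℂ) (hv : Inc D m v = 0) : v = 0 := by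
  funext j
  have h1 : Inc D m v ⟨j.1, lt_of_lt_of_le j.2 h⟩ = 0 := by rw [hv]; rfl
  unfold Inc at h1
  rw [LinearMap.pi_apply, dif_pos j.2] at h1
  exact h1

private theorem build (n m r s : ℕ) (w ε : ℤ) (V : Submodule ℂ (ZMod (2 ^ r) → ZMod (2 ^ s) → ℂ))
    (hV : Module.finrank ℂ V ≤ m) (L : (ℤ → ℤ → ℂ) →ₗ[ℂ] (ZMod (2 ^ r) → ZMod (2 ^ s) → ℂ))
    (hmem : ∀ G ∈ NSS n w ε, L G ∈ V) (hinj : ∀ G ∈ NSS n w ε, L G = 0 → EqC G 0) :
    ∃ Θ : NSS n w ε →ₗ[ℂ] (Fin m → ℂ), ∀ G : NSS n w ε, Θ G = 0 → EqC (G : ℤ → ℤ → ℂ) 0 := by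
  have e : V ≃ₗ[ℂ] (Fin (Module.finrank ℂ V) → ℂ) :=
    LinearEquiv.ofFinrankEq V (Fin (Module.finrank ℂ V) → ℂ) (by simp)
  let L' : NSS n w ε →ₗ[ℂ] V := (L.comp (NSS n w ε).subtype).codRestrict V (fun G => hmem G G.2)
  refine ⟨(Inc (Module.finrank ℂ V) m).comp (e.toLinearMap.comp L'), fun G hG => ?_⟩
  have h1 : e (L' G) = 0 := Inc_inj _ m hV _ hG
  have h2 : L' G = 0 := by
    rw [← e.map_zero] at h1
    exact e.injective h1
  have h3 : L (G : ℤ → ℤ → ℂ) = 0 := congrArg Subtype.val h2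
  exact hinj G G.2 h3

private theorem fin_antiES_two (σ τ : ℤ) : Module.finrank ℂ (antiES 2 σ τ) ≤ 4 := by
  refine le_trans (Submodule.finrank_le _) ?_
  have h : Module.finrank ℂ (ZMod (2 ^ (2 - 1)) → ZMod (2 ^ (2 - 1)) → ℂ) = 4 := by
    rw [Module.finrank_pi_fintype]
    simp [ZMod.card]
  rw [h]

private theorem fin_antiOS_one (η ε : ℤ) :
    Module.finrank ℂ ↥(antiOS 1 η ε ⊓ LinearMap.ker (Rq 1)) ≤ 1 := by
  let T : ↥(antiOS 1 η ε ⊓ LinearMap.ker (Rq 1)) →ₗ[ℂ] ℂ :=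
    ((LinearMap.proj (0 : ZMod (2 ^ 1))).comp
      (LinearMap.proj (R := ℂ) (φ := fun _ : ZMod (2 ^ 1) => ZMod (2 ^ 1) → ℂ) (0 : ZMod (2 ^ 1)))).comp
      (antiOS 1 η ε ⊓ LinearMap.ker (Rq 1)).subtype
  have hT : Function.Injective T := by
    rw [injective_iff_map_eq_zero]
    rintro ⟨F, hF⟩ h0
    have h0' : F 0 0 = 0 := h0
    have hA : F ∈ antiOS 1 η ε := hF.1
    have h1 : ∀ x y, F (x + 1) y = -F x y := by
      intro x y
      have := (hA x y).1
      simpa using this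
    have h2 : ∀ x y, F x (y + 1) = -F x y := by
      intro x y
      have := (hA x y).2.1
      simpa using this
    have h01 : F 0 1 = 0 := by
      have := h2 0 0
      rw [zero_add, h0', neg_zero] at this
      exact this
    have h10 : F 1 0 = 0 := by
      have := h1 0 0
      rw [zero_add, h0', neg_zero] at this
      exact this
    have h11 : F 1 1 = 0 := by
      have := h1 0 1
      rw [zero_add, h01, neg_zero] at this
      exact this
    have hcase : ∀ z : ZMod (2 ^ 1), z = 0 ∨ z = 1 := by decide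
    apply Subtype.ext
    funext x y
    show F x y = 0
    rcases hcase x with rfl | rfl <;> rcases hcase y with rfl | rfl
    · exact h0'
    · exact h01
    · exact h10
    · exact h11
  have := LinearMap.finrank_le_finrank_of_injective hT
  simpa using this

theorem hUbs : StUbs := by
  intro hBal hE1 hDimE hO1 hKerO n w ε hn hw hε
  have hε' : Sg (-ε) := by
    rcases hε with h | h
    · right; rw [h]
    · left; rw [h]; rfl
  rcases Nat.even_or_odd' n with ⟨k, hk | hk⟩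
  · -- even exponent
    subst hk
    have hk2 : 2 ≤ k := by omega
    have hn2 : 2 * k / 2 = k := by omega
    rw [hn2]
    have key : ∀ G ∈ NSS (2 * k) w ε, Lm 1 k (k - 1) (k - 1) 1 1 (-1) 1 G ∈ antiES k w (-ε) ∧
        (Lm 1 k (k - 1) (k - 1) 1 1 (-1) 1 G = 0 → EqC G 0) := by
      intro G hG
      have hN : NewSymS (2 * k) w ε G := hG
      have hB := (hBal w ε k G (by omega)).1 hN
      obtain ⟨a1, a2⟩ := hE1 w ε k _ hw hε hk2 hB
      refine ⟨a1, fun h0 => ?_⟩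
      have h3 := a2 (fun x y => congrFun (congrFun h0 x) y)
      exact (hBal w ε k G (by omega)).2.2 hN.1.1 h3
    refine build (2 * k) _ (k - 1) (k - 1) w ε (antiES k w (-ε)) ?_ (Lm 1 k (k - 1) (k - 1) 1 1 (-1) 1)
      (fun G hG => (key G hG).1) (fun G hG => (key G hG).2)
    rcases Nat.lt_or_ge k 3 with h3 | h3
    · have hk' : k = 2 := by omega
      subst hk'
      refine le_trans (fin_antiES_two w (-ε)) ?_
      norm_num
    · have hd : dd (2 * k) = 4 ^ (k - 3) := by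
        unfold dd
        rw [if_neg (by omega), if_pos (by omega)]
        congr 1
        omega
      rw [hd]
      have h4 := hDimE w (-ε) k hw hε' h3
      obtain ⟨j, rfl⟩ : ∃ j, k = j + 3 := ⟨k - 3, by omega⟩
      have e1 : j + 3 - 2 = j + 1 := by omega
      have e2 : j + 3 - 3 = j := by omega
      rw [e1] at h4
      rw [e2]
      have h5 : w * (1 + -ε) ≤ 2 := by
        rcases hw with rfl | rfl <;> rcases hε with rfl | rfl <;> norm_num
      have h6 : (2 : ℤ) ^ (j + 1) * (w * (1 + -ε)) ≤ 2 ^ (j + 1) * 2 :=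
        mul_le_mul_of_nonneg_left h5 (by positivity)
      have h7 : (4 : ℤ) ^ (j + 1) = 4 * 4 ^ j := by ring
      have h8 : (2 : ℤ) ^ (j + 1) * 2 = 4 * 2 ^ j := by ring
      have h9 : (Module.finrank ℂ (antiES (j + 3) w (-ε)) : ℤ) ≤ 4 ^ j + 2 ^ j := by linarith
      have h10 : (2 : ℤ) ^ j ≤ 2 ^ (j + 3) := pow_le_pow_right₀ (by norm_num) (by omega)
      have h11 : (Module.finrank ℂ (antiES (j + 3) w (-ε)) : ℤ) ≤ 4 ^ j + 2 ^ (j + 3) := by linarith
      exact_mod_cast h11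
  · -- odd exponent
    subst hk
    have hk1 : 1 ≤ k := by omega
    have hn2 : (2 * k + 1) / 2 = k := by omega
    have key : ∀ G ∈ NSS (2 * k + 1) w ε, Lm 0 k k k 1 0 0 1 G ∈ antiOS k (w * ε) ε ∧
        Rq k (Lm 0 k k k 1 0 0 1 G) = 0 ∧ (Lm 0 k k k 1 0 0 1 G = 0 → EqC G 0) := by
      intro G hG
      have hN : NewSymS (2 * k + 1) w ε G := hG
      have hB := (hBal w ε k G hk1).2.1 hN
      obtain ⟨a1, a2, a3⟩ := hO1 w ε k _ hw hε hk1 hB
      refine ⟨a1, a2, fun h0 => ?_⟩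
      have h3 := a3 (fun x y => congrFun (congrFun h0 x) y)
      exact (hBal w ε k G hk1).2.2 hN.1.1 h3
    refine build (2 * k + 1) _ k k w ε (antiOS k (w * ε) ε ⊓ LinearMap.ker (Rq k)) ?_
      (Lm 0 k k k 1 0 0 1)
      (fun G hG => ⟨(key G hG).1, LinearMap.mem_ker.2 (key G hG).2.1⟩) (fun G hG => (key G hG).2.2)
    rcases Nat.lt_or_ge k 2 with h3 | h3
    · have hk' : k = 1 := by omega
      subst hk'
      refine le_trans (fin_antiOS_one (w * ε) ε) ?_
      have : 1 ≤ 2 ^ ((2 * 1 + 1) / 2) := Nat.one_le_two_pow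
      omega
    · have hd : dd (2 * k + 1) = 2 ^ (k - 2) * (2 ^ (k - 2) + 1) / 2 := by
        unfold dd
        rw [if_neg (by omega), if_neg (by omega), hn2]
      have hη : Sg (w * ε) := by
        rcases hw with rfl | rfl <;> rcases hε with rfl | rfl <;> unfold Sg <;> norm_num
      have h4 := hKerO (w * ε) ε k hη hε h3
      have h5 : w * ε * ε ≤ 1 := by
        rcases hw with rfl | rfl <;> rcases hε with rfl | rfl <;> norm_num
      have h6 : (2 : ℤ) ^ (k - 1) * (2 * (w * ε * ε)) ≤ 2 ^ (k - 1) * 2 :=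
        mul_le_mul_of_nonneg_left (by linarith) (by positivity)
      rw [hd]
      obtain ⟨j, rfl⟩ : ∃ j, k = j + 2 := ⟨k - 2, by omega⟩
      have e1 : j + 2 - 1 = j + 1 := by omega
      have e2 : j + 2 - 2 = j := by omega
      rw [e1] at h4 h6
      rw [e2]
      have h7 : (4 : ℤ) ^ (j + 1) = 4 * (2 ^ j) ^ 2 := by
        rw [← pow_mul, mul_comm j 2, pow_mul]; ring
      have h8 : (2 : ℤ) ^ (j + 1) * 2 = 4 * 2 ^ j := by ring
      have h9 : 2 * (Module.finrank ℂ ↥(antiOS (j + 2) (w * ε) ε ⊓ LinearMap.ker (Rq (j + 2))) : ℤ)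
          ≤ 2 ^ j * (2 ^ j + 1) := by nlinarith
      have h10 : 2 * Module.finrank ℂ ↥(antiOS (j + 2) (w * ε) ε ⊓ LinearMap.ker (Rq (j + 2)))
          ≤ 2 ^ j * (2 ^ j + 1) := by exact_mod_cast h9
      have h11 : Module.finrank ℂ ↥(antiOS (j + 2) (w * ε) ε ⊓ LinearMap.ker (Rq (j + 2)))
          ≤ 2 ^ j * (2 ^ j + 1) / 2 := by omega
      exact le_trans h11 (Nat.le_add_right _ _)

end Pool.Agent.Helper24.TX
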